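import Pool.Agent.P.MP_a6f615_lc.UpGame

namespace Pool.Agent.Results.MP_a6f615_lc.DegreeFromSpace

open Pool.Agent.P.MP_a6f615_lc MvPolynomial

theorem result (V F : Type) [Fintype V] [Field F] (P : Set (MvPolynomial V F)) (d k s ℓ : ℕ)
    (M : ℕ → Finset (MvPolynomial V F)) (hk : 1 ≤ k) (hd : ∀ p ∈ P, p.totalDegree ≤ d)
    (h0 : M 0 = ∅) (h1 : 1 ∈ M ℓ) (hs : ∀ i ≤ ℓ, monSpace (M i) ≤ s)
    (hstep : ∀ i < ℓ,
      (∀ q ∈ M (i + 1), q ∈ P ∨ q ∈ Ideal.span (M i : Set (MvPolynomial V F)) +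
        Ideal.span (Set.range fun x : V => (X x ^ 2 - X x : MvPolynomial V F))) ∨
      (SemStep P (M i) (M (i + 1)) ∧ ∀ p ∈ P, ∀ a : V → F, (∀ x, a x = 0 ∨ a x = 1) →
        eval a p = 0 ∨ eval a p ^ k = 1)) :
    HasPCRefutation P (k * d + s * (s + 1) / 2) :=
  Up.upper P d k s ℓ M hk hd h0 h1 hs hstep

/-- ordinary configuration refutations, any field, any `P` -/
theorem ordinary (V F : Type) [Fintype V] [Field F] (P : Set (MvPolynomial V F)) (d s ℓ : ℕ)
    (M : ℕ → Finset (MvPolynomial V F)) (hd : ∀ p ∈ P, p.totalDegree ≤ d)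
    (h0 : M 0 = ∅) (h1 : 1 ∈ M ℓ) (hs : ∀ i ≤ ℓ, monSpace (M i) ≤ s)
    (hstep : ∀ i < ℓ, SynStep P (M i) (M (i + 1))) : HasPCRefutation P (d + s * (s + 1) / 2) := by
  have := result V F P d 1 s ℓ M le_rfl hd h0 h1 hs fun i hi => Or.inl fun r hr => by
    rcases hstep i hi with h | ⟨q, hM, hq⟩
    · exact Or.inr (Ideal.mem_sup_left (Ideal.subset_span (h hr)))
    · have : r ∈ (M (i + 1) : Set (MvPolynomial V F)) := hr
      rw [hM] at this
      rcases this with rfl | h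
      · rcases hq with hq | ⟨x, rfl⟩ | ⟨p₁, h₁, p₂, h₂, a, b, rfl⟩ | ⟨p, hp, x, rfl⟩
        · exact Or.inl hq
        · exact Or.inr (Ideal.mem_sup_right (Ideal.subset_span ⟨x, rfl⟩))
        · exact Or.inr (Ideal.mem_sup_left (Ideal.add_mem _
            (Ideal.mul_mem_left _ _ (Ideal.subset_span h₁))
            (Ideal.mul_mem_left _ _ (Ideal.subset_span h₂))))
        · exact Or.inr (Ideal.mem_sup_left (Ideal.mul_mem_left _ _ (Ideal.subset_span hp)))
      · exact Or.inr (Ideal.mem_sup_left (Ideal.subset_span h))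
  rwa [one_mul] at this

/-- semantic refutations over a finite field, any `P` -/
theorem finiteField (V F : Type) [Fintype V] [Field F] [Fintype F] (P : Set (MvPolynomial V F))
    (d s ℓ : ℕ) (M : ℕ → Finset (MvPolynomial V F)) (hd : ∀ p ∈ P, p.totalDegree ≤ d)
    (h0 : M 0 = ∅) (h1 : 1 ∈ M ℓ) (hs : ∀ i ≤ ℓ, monSpace (M i) ≤ s)
    (hstep : ∀ i < ℓ, SemStep P (M i) (M (i + 1))) :
    HasPCRefutation P ((Fintype.card F - 1) * d + s * (s + 1) / 2) :=
  result V F P d _ s ℓ M (by have := Fintype.one_lt_card (α := F); omega) hd h0 h1 hs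
    fun i hi => Or.inr ⟨hstep i hi, fun p _ a _ =>
      (eq_or_ne _ _).imp_right fun h => FiniteField.pow_card_sub_one_eq_one _ h⟩

/-- semantic refutations of CNFs, any field -/
theorem cnf (V F : Type) [Fintype V] [Field F] (Φ : Set (Finset (V × Bool)))
    (d s ℓ : ℕ) (M : ℕ → Finset (MvPolynomial V F))
    (hd : ∀ p ∈ clausePoly F '' Φ, p.totalDegree ≤ d)
    (h0 : M 0 = ∅) (h1 : 1 ∈ M ℓ) (hs : ∀ i ≤ ℓ, monSpace (M i) ≤ s)
    (hstep : ∀ i < ℓ, SemStep (clausePoly F '' Φ) (M i) (M (i + 1))) :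
    HasPCRefutation (clausePoly F '' Φ) (d + s * (s + 1) / 2) := by
  have := result V F _ d 1 s ℓ M le_rfl hd h0 h1 hs fun i hi => Or.inr ⟨hstep i hi, by
    rintro _ ⟨c, _, rfl⟩ a ha
    rw [pow_one, clausePoly, map_prod]
    refine Finset.prod_induction _ (fun y : F => y = 0 ∨ y = 1) ?_ (Or.inr rfl) fun l _ => ?_
    · rintro y z (rfl | rfl) (rfl | rfl) <;> simp
    · rcases ha l.1 with h | h <;> split_ifs <;> simp [h]⟩
  rwa [one_mul] at this

end Pool.Agent.Results.MP_a6f615_lc.DegreeFromSpace
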