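import Pool.Agent.K.MP_a6f615_lc.C0

namespace Pool.Agent.Results.MP_a6f615_lc.SpaceSqrtDegree

open Pool.Agent.P.MP_a6f615_lc

theorem result (s : ℕ) :
    ∃ (V : Type) (_ : Fintype V) (Φ : Finset (Finset (V × Bool))), (∀ c ∈ Φ, c.card ≤ 3) ∧
      ∀ (F : Type) [Field F] (P : Set (MvPolynomial V F)), P = clausePoly F '' Φ →
        (∀ a : V → F, (∀ x, a x = 0 ∨ a x = 1) → ∃ p ∈ P, MvPolynomial.eval a p ≠ 0) ∧
        (∃ (ℓ : ℕ) (M : ℕ → Finset (MvPolynomial V F)), M 0 = ∅ ∧ 1 ∈ M ℓ ∧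
          (∀ i < ℓ, SemStep P (M i) (M (i + 1)) ∧ SynStep P (M i) (M (i + 1))) ∧
          ∀ i ≤ ℓ, monSpace (M i) ≤ 6 * s + 105) ∧
        ∃ D : ℕ, IsLeast {D' | HasPCRefutation P D'} D ∧
          ∀ p ∈ P, p.totalDegree + s ^ 2 ≤ D :=
  main s

end Pool.Agent.Results.MP_a6f615_lc.SpaceSqrtDegree
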